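import Pool.Agent.W307.FK.Stm
import Pool.Agent.W125.RS.ExpK

/-!
# Project FK: expansion of the moments over the signs into symbols (`EXPF`)
-/

set_option autoImplicit false

namespace Pool.Agent.W864.FK

open Finset Pool.Agent.W262.RK Pool.Agent.W108.RK Pool.Agent.W762.RK2 Pool.Agent.W307.FK
  Pool.Agent.W125.RS

/-- the embedding of the bit of the class `c` -/
def em (c : Fin 3) (b : Bool) : Bool × Bool :=
  if c = 0 then (b, b) else if c = 1 then (b, false) else (false, b)

section average

variable {k : ℕ}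

/-- the local indicator -/
noncomputable def IlF (s : Fin 3 → ℕ) (d : ℕ × ℕ) (neg : Bool) (p : ℕ) : ℝ :=
  ind (∀ j, p ∣ s j → LR j neg (dv p d.1) (dv p d.2) (sgn p d.1) (sgn p d.2))

lemma NF_eq {s : Fin 3 → ℕ} :
    NF k s = ∑ d ∈ Fintype.piFinset
      (fun _ : Fin k => (∏ j, s j).divisors ×ˢ (∏ j, s j).divisors),
      ∏ p ∈ (∏ j, s j).primeFactors, ((∏ a, IlF s (d a) true p) +
        ∏ a, IlF s (d a) false p) / 2 := by
  classical
  have h0 : ∀ E : Finset ℕ, (NL (∏ j, s j) (LF s E) : ℝ) =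
      ∑ d ∈ (∏ j, s j).divisors ×ˢ (∏ j, s j).divisors,
        ∏ p ∈ (∏ j, s j).primeFactors, IlF s d (decide (p ∈ E)) p := by
    intro E
    unfold NL
    rw [Finset.card_filter]
    push_cast
    refine Finset.sum_congr rfl fun d _ => ?_
    unfold IlF
    rw [prod_ind]
    unfold ind LF
    congr
  have h1 : ∀ E : Finset ℕ, (NL (∏ j, s j) (LF s E) : ℝ) ^ k =
      ∑ d ∈ Fintype.piFinset
        (fun _ : Fin k => (∏ j, s j).divisors ×ˢ (∏ j, s j).divisors),
        ∏ p ∈ (∏ j, s j).primeFactors, ∏ a, IlF s (d a) (decide (p ∈ E)) p := by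
    intro E
    have h2 : (NL (∏ j, s j) (LF s E) : ℝ) ^ k =
        ∏ _a : Fin k, (NL (∏ j, s j) (LF s E) : ℝ) := by
      rw [Finset.prod_const, Finset.card_univ, Fintype.card_fin]
    rw [h2, Finset.prod_congr rfl fun a _ => h0 E, Finset.prod_univ_sum]
    refine Finset.sum_congr rfl fun d _ => ?_
    rw [Finset.prod_comm]
  unfold NF
  rw [Finset.sum_congr rfl fun E _ => h1 E, Finset.sum_comm, Finset.mul_sum]
  refine Finset.sum_congr rfl fun d _ => ?_
  refine avg (∏ j, s j).primeFactors (∏ j, s j).primeFactors (Finset.Subset.refl _)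
    (fun b p => ∏ a, IlF s (d a) b p) ?_
  intro p hp hpA
  exact absurd hp hpA

end average

section local_identity

variable {k : ℕ}

lemma locF1 (c : Fin 3) (neg : Bool) (v : Bool × Bool) (h g : Bool) :
    ind (LR c neg v.1 v.2 h g) = ∑ x : Bool, if em c x = v then
      ∑ y : Bool, (if (x && y) = true then sg neg else 1) *
        (1 / 2 * (if y = true then sg (phi c h g) else 1)) else 0 := by
  obtain ⟨v1, v2⟩ := v
  simp only [Fintype.sum_bool]
  fin_cases c <;> cases v1 <;> cases v2 <;> cases neg <;> cases h <;> cases g <;>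
    simp [ind, LR, em, phi, sg] <;> norm_num

lemma prod_dt (r : ℝ) (hr : r * r = 1) (x y : Fin k → Bool) :
    (∏ a, if (x a && y a) = true then r else 1) = if dt k x y % 2 = 1 then r else 1 := by
  rw [← Finset.prod_filter, Finset.prod_const]
  show r ^ dt k x y = _
  conv_lhs => rw [← Nat.div_add_mod (dt k x y) 2]
  rw [pow_add, pow_mul, pow_two, hr, one_pow, one_mul]
  rcases Nat.mod_two_eq_zero_or_one (dt k x y) with h | h <;> simp [h]

lemma locF (c : Fin 3) (v : Fin k → Bool × Bool) (h g : Fin k → Bool) :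
    ((∏ a, ind (LR c true (v a).1 (v a).2 (h a) (g a))) +
      ∏ a, ind (LR c false (v a).1 (v a).2 (h a) (g a))) / 2 =
      ∑ x : Fin k → Bool, if (fun a => em c (x a)) = v then ∑ y : Fin k → Bool,
        (if dt k x y % 2 = 0 then
          1 / 2 ^ k * ∏ a, (if y a = true then sg (phi c (h a) (g a)) else 1) else 0) else 0 := by
  have h1 : ∀ neg, ∏ a, ind (LR c neg (v a).1 (v a).2 (h a) (g a)) =
      ∑ x : Fin k → Bool, if (fun a => em c (x a)) = v then ∑ y : Fin k → Bool,
        (if dt k x y % 2 = 1 then sg neg else 1) *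
        (1 / 2 ^ k * ∏ a, (if y a = true then sg (phi c (h a) (g a)) else 1)) else 0 := by
    intro neg
    rw [Finset.prod_congr rfl fun a _ => locF1 c neg (v a) (h a) (g a),
      Finset.prod_univ_sum, Fintype.piFinset_univ]
    refine Finset.sum_congr rfl fun x _ => ?_
    by_cases hx : (fun a => em c (x a)) = v
    · rw [if_pos hx]
      have h2 : ∀ a, em c (x a) = v a := fun a => congrFun hx a
      simp only [h2, if_true]
      rw [Finset.prod_univ_sum, Fintype.piFinset_univ]
      refine Finset.sum_congr rfl fun y _ => ?_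
      rw [Finset.prod_mul_distrib, Finset.prod_mul_distrib,
        prod_dt _ (by cases neg <;> simp [sg]), Finset.prod_const,
        Finset.card_univ, Fintype.card_fin, one_div, one_div, inv_pow]
    · rw [if_neg hx]
      have h2 : ∃ a, em c (x a) ≠ v a := by
        by_contra hc
        push Not at hc
        exact hx (funext hc)
      obtain ⟨a, ha⟩ := h2
      exact Finset.prod_eq_zero (Finset.mem_univ a) (by rw [if_neg ha])
  rw [h1, h1, ← Finset.sum_add_distrib, Finset.sum_div]
  refine Finset.sum_congr rfl fun x _ => ?_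
  by_cases hx : (fun a => em c (x a)) = v
  · rw [if_pos hx, if_pos hx, if_pos hx, ← Finset.sum_add_distrib, Finset.sum_div]
    refine Finset.sum_congr rfl fun y _ => ?_
    rcases Nat.mod_two_eq_zero_or_one (dt k x y) with h' | h'
    · simp [h']
    · simp [h', sg]
  · rw [if_neg hx, if_neg hx, if_neg hx]
    simp

end local_identity

section final

variable {z y k : ℕ}

/-- the local term -/
noncomputable def TmF (c : ℕ)
    (ξ : Pr z y → Option (Fin 3 × (Fin k → Bool × Bool))) (p : Pr z y) : ℝ :=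
  (ξ p).elim 1 fun r => 1 / ((p : ℝ) - c) * (((∏ a, ind (LR r.1 true (r.2 a).1 (r.2 a).2
    (sgn p (E1 a ξ)) (sgn p (E2 a ξ)))) + ∏ a, ind (LR r.1 false (r.2 a).1 (r.2 a).2
    (sgn p (E1 a ξ)) (sgn p (E2 a ξ)))) / 2)

lemma lhsF (c : ℕ) :
    ∑ s ∈ Tup (Fin 3) z y, NF k s * ∏ j, gw 1 c (s j) =
      ∑ ξ : Pr z y → Option (Fin 3 × (Fin k → Bool × Bool)), ∏ p, TmF c ξ p := by
  have h1 : ∀ s ∈ Tup (Fin 3) z y, NF k s * ∏ j, gw 1 c (s j) =
      ∑ d ∈ Fintype.piFinset (fun _ : Fin k => (∏ j, s j).divisors ×ˢ (∏ j, s j).divisors),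
        (∏ p ∈ (∏ j, s j).primeFactors, ((∏ a, IlF s (d a) true p) +
        ∏ a, IlF s (d a) false p) / 2) * ∏ j, gw 1 c (s j) := by
    intro s hs
    rw [NF_eq, Finset.sum_mul]
  rw [Finset.sum_congr rfl h1, sum_bigK fun s d =>
    (∏ p ∈ (∏ j, s j).primeFactors, ((∏ a, IlF s (d a) true p) +
        ∏ a, IlF s (d a) false p) / 2) * ∏ j, gw 1 c (s j)]
  refine Finset.sum_congr rfl fun ξ _ => ?_
  have h2 : ∏ j, gw 1 c (SK ξ j) = ∏ p : Pr z y, ((ξ p).map Prod.fst).elim 1
      fun _ => 1 / ((p : ℝ) - c) := prod_gw (fun _ => 1) c _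
  have h3 : ∏ j, SK ξ j = nb fun p => ((ξ p).map Prod.fst).isSome := prod_Dl _
  rw [h2, h3, prod_pf _ fun p => ((∏ a, IlF (SK ξ) (E1 a ξ, E2 a ξ) true p) +
    ∏ a, IlF (SK ξ) (E1 a ξ, E2 a ξ) false p) / 2, ← Finset.prod_mul_distrib]
  refine Finset.prod_congr rfl fun p _ => ?_
  unfold TmF
  cases hx : ξ p with
  | none => simp
  | some r =>
    have h4 : ∀ (neg : Bool) (a : Fin k), IlF (SK ξ) (E1 a ξ, E2 a ξ) neg p =
        ind (LR r.1 neg (r.2 a).1 (r.2 a).2 (sgn p (E1 a ξ)) (sgn p (E2 a ξ))) := by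
      intro neg a
      unfold IlF
      have e1 : dv p (E1 a ξ : ℤ) = (r.2 a).1 := by
        have : B1 a (ξ p) = (r.2 a).1 := by rw [hx]; rfl
        rw [← this]
        unfold dv
        rw [Bool.eq_iff_iff, decide_eq_true_iff, Int.natCast_dvd_natCast]
        exact dvd_nb _ p
      have e2 : dv p (E2 a ξ : ℤ) = (r.2 a).2 := by
        have : B2 a (ξ p) = (r.2 a).2 := by rw [hx]; rfl
        rw [← this]
        unfold dv
        rw [Bool.eq_iff_iff, decide_eq_true_iff, Int.natCast_dvd_natCast]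
        exact dvd_nb _ p
      have e3 : ∀ j, (p : ℕ) ∣ SK ξ j ↔ j = r.1 := by
        intro j
        unfold SK Dl
        rw [dvd_nb, decide_eq_true_iff]
        show (ξ p).map Prod.fst = some j ↔ j = r.1
        rw [hx]
        simp [eq_comm]
      congr 1
      simp only [e1, e2, e3, forall_eq]
    simp only [h4]
    simp only [Option.map_some, Option.isSome_some, if_true, Option.elim]
    ring

/-- forget the character -/
def fgF (x : Option (IF k)) : Option (Fin 3 × (Fin k → Bool × Bool)) :=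
  x.map fun i => (i.1.1, fun a => em i.1.1 (i.1.2.1 a))

/-- the local factor -/
noncomputable def GF (c : ℕ)
    (ξ : Pr z y → Option (Fin 3 × (Fin k → Bool × Bool))) (p : Pr z y) (x : Option (IF k)) : ℝ :=
  x.elim 1 fun i => 1 / ((p : ℝ) - c) * (1 / 2 ^ k *
    ∏ a, (if i.1.2.2 a = true then sg (phi i.1.1 (sgn p (E1 a ξ)) (sgn p (E2 a ξ))) else 1))

lemma sum_IF (F : Fin 3 × (Fin k → Bool) × (Fin k → Bool) → ℝ) :
    ∑ i : IF k, F i.1 = ∑ r, if dt k r.2.1 r.2.2 % 2 = 0 then F r else 0 := by
  rw [← Finset.sum_filter]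
  exact (Finset.sum_subtype (univ.filter fun r : Fin 3 × (Fin k → Bool) ×
    (Fin k → Bool) => dt k r.2.1 r.2.2 % 2 = 0) (fun x => by simp) F).symm

lemma sum_GF (c : ℕ)
    (ξ : Pr z y → Option (Fin 3 × (Fin k → Bool × Bool))) (p : Pr z y) :
    ∑ x ∈ univ.filter (fun x : Option (IF k) => fgF x = ξ p), GF c ξ p x =
      TmF c ξ p := by
  rw [Finset.sum_filter, Fintype.sum_option]
  unfold TmF
  cases hx : ξ p with
  | none => simp [fgF, GF]
  | some r =>
    obtain ⟨j, v⟩ := r
    have h0 : (if fgF (none : Option (IF k)) = some (j, v) then GF c ξ p none else 0) = 0 := by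
      rw [if_neg]
      simp [fgF]
    rw [h0, zero_add]
    set F : Fin 3 × (Fin k → Bool) × (Fin k → Bool) → ℝ :=
      fun r : Fin 3 × (Fin k → Bool) × (Fin k → Bool) =>
          if r.1 = j ∧ (fun a => em r.1 (r.2.1 a)) = v then 1 / ((p : ℝ) - c) * (1 / 2 ^ k *
            ∏ a, (if r.2.2 a = true then sg (phi r.1 (sgn p (E1 a ξ)) (sgn p (E2 a ξ))) else 1))
            else 0 with hF
    have h1 : ∀ i : IF k, (if fgF (some i) = some (j, v) then GF c ξ p (some i) else 0) =
        F i.1 := by
      intro i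
      refine if_congr ?_ rfl rfl
      simp only [fgF, Option.map_some, Option.some.injEq, Prod.mk.injEq]
    refine (Finset.sum_congr rfl fun i _ => h1 i).trans ((sum_IF F).trans ?_)
    rw [Fintype.sum_prod_type, Finset.sum_eq_single j]
    · rw [Fintype.sum_prod_type]
      show _ = 1 / ((p : ℝ) - c) * _
      rw [locF j v, Finset.mul_sum]
      refine Finset.sum_congr rfl fun x _ => ?_
      by_cases hxv : (fun a => em j (x a)) = v
      · rw [if_pos hxv, Finset.mul_sum]
        refine Finset.sum_congr rfl fun y _ => ?_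
        simp only [hF, hxv, and_self, if_true, mul_ite, mul_zero]
      · rw [if_neg hxv, mul_zero]
        refine Finset.sum_eq_zero fun y _ => ?_
        simp [hF, hxv]
    · intro j' _ hj'
      refine Finset.sum_eq_zero fun x _ => ?_
      simp [hF, hj']
    · intro h
      exact absurd (Finset.mem_univ _) h

/-- the factor of a prime in the symbol -/
noncomputable def fac (c : Fin 3) (q p : Pr z y) (b1 b2 : Bool) : ℝ :=
  (if c ≠ 1 then (if q ≠ p ∧ b1 = true then Jr (q : ℕ) p else 1) else 1) *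
    (if c ≠ 2 then (if q ≠ p ∧ b2 = true then Jr (q : ℕ) p else 1) else 1)

lemma sg_phi (c : Fin 3) (h g : Bool) : sg (phi c h g) =
    (if c ≠ 1 then sg h else 1) * (if c ≠ 2 then sg g else 1) := by
  fin_cases c <;> cases h <;> cases g <;> simp [phi, sg]

lemma sgn_fac (c : Fin 3) (p : Pr z y) (b1 b2 : Pr z y → Bool) :
    sg (phi c (sgn p (nb b1 : ℤ)) (sgn p (nb b2 : ℤ))) = ∏ q, fac c q p (b1 q) (b2 q) := by
  rw [sg_phi]
  unfold fac
  rw [Finset.prod_mul_distrib]
  congr 1
  · by_cases h : c ≠ 1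
    · simp only [if_pos h]
      exact sgn_nb b1 p
    · simp [if_neg h]
  · by_cases h : c ≠ 2
    · simp only [if_pos h]
      exact sgn_nb b2 p
    · simp [if_neg h]

lemma fac_em (c c' : Fin 3) {q p : Pr z y} (hqp : q ≠ p) (b : Bool) :
    fac c q p (em c' b).1 (em c' b).2 =
      if c' ≠ c then (if b = true then Jr (q : ℕ) p else 1) else 1 := by
  have hJ := Jr_self_mul hqp
  unfold fac em
  fin_cases c <;> fin_cases c' <;> cases b <;> simp [hqp, hJ]

lemma rhsF (c : ℕ)
    (ξ : Pr z y → Option (Fin 3 × (Fin k → Bool × Bool))) (l : Pr z y → Option (IF k))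
    (h : ∀ p, fgF (l p) = ξ p) :
    (∏ i, gw (1 / 2 ^ k) c (Dl l i)) * Pool.Agent.W262.RK.Sym (Lk k) (fun _ => 1) (Dl l) =
      ∏ p, GF c ξ p (l p) := by
  rw [prod_gw (fun _ => 1 / 2 ^ k), Sym_Dl, ← Finset.prod_mul_distrib, ← Finset.prod_mul_distrib]
  refine Finset.prod_congr rfl fun p _ => ?_
  have hJ1 : Jr 1 (p : ℕ) = 1 := Jr_one_left p
  cases hl : l p with
  | none =>
    have h0 : ∀ q, Pool.Agent.W762.RK2.lk (Lk k) (l q) (none : Option (IF k)) = false := by
      intro q
      cases l q <;> rfl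
    simp [h0, GF]
  | some i =>
    have h2 : ∏ q : Pr z y, (if Pool.Agent.W762.RK2.lk (Lk k) (l q) (some i) = true
        then Jr (q : ℕ) p else 1) =
        ∏ a, (if i.1.2.2 a = true then
          sg (phi i.1.1 (sgn p (E1 a ξ)) (sgn p (E2 a ξ))) else 1) := by
      have h3 : ∀ a : Bool, ∀ b1 b2 : Pr z y → Bool,
          (if a = true then sg (phi i.1.1 (sgn p (nb b1 : ℤ)) (sgn p (nb b2 : ℤ))) else 1) =
          ∏ q : Pr z y, if a = true then fac i.1.1 q p (b1 q) (b2 q) else 1 := by
        intro a b1 b2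
        cases a
        · simp
        · simp only [if_true]
          exact sgn_fac _ p b1 b2
      unfold E1 E2
      simp only [h3]
      rw [Finset.prod_comm]
      refine Finset.prod_congr rfl fun q _ => ?_
      by_cases hqp : q = p
      · subst hqp
        rw [hl]
        have h4 : Pool.Agent.W762.RK2.lk (Lk k) (some i) (some i) = false := by
          show (decide (i.1.1 ≠ i.1.1) && decide (dt k i.1.2.1 i.1.2.2 % 2 = 1)) = false
          simp
        simp [h4, fac]
      · cases hq : l q with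
        | none =>
          have h5 : ξ q = none := by rw [← h q, hq]; rfl
          simp [Pool.Agent.W762.RK2.lk, h5, B1, B2, fac]
        | some i' =>
          have h5 : ξ q = some (i'.1.1, fun a => em i'.1.1 (i'.1.2.1 a)) := by
            rw [← h q, hq]; rfl
          have e1 : ∀ a, B1 a (ξ q) = (em i'.1.1 (i'.1.2.1 a)).1 := fun a => by rw [h5]; rfl
          have e2 : ∀ a, B2 a (ξ q) = (em i'.1.1 (i'.1.2.1 a)).2 := fun a => by rw [h5]; rfl
          simp only [e1, e2, fac_em i.1.1 i'.1.1 hqp]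
          by_cases hc : i'.1.1 = i.1.1
          · have h7 : Pool.Agent.W762.RK2.lk (Lk k) (some i') (some i) = false := by
              show (decide (i'.1.1 ≠ i.1.1) && decide (dt k i'.1.2.1 i.1.2.2 % 2 = 1)) = false
              simp [hc]
            simp [h7, hc]
          · have h7 : (if Pool.Agent.W762.RK2.lk (Lk k) (some i') (some i) = true
                then Jr (q : ℕ) p else 1) =
                if dt k i'.1.2.1 i.1.2.2 % 2 = 1 then Jr (q : ℕ) p else 1 := by
              refine if_congr ?_ rfl rfl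
              show (decide (i'.1.1 ≠ i.1.1) && decide (dt k i'.1.2.1 i.1.2.2 % 2 = 1)) = true ↔ _
              simp [hc]
            rw [h7, ← prod_dt (Jr (q : ℕ) p) (Jr_self_mul hqp) i'.1.2.1 i.1.2.2]
            refine Finset.prod_congr rfl fun a _ => ?_
            rw [if_pos hc]
            cases i'.1.2.1 a <;> cases i.1.2.2 a <;> simp
    rw [h2]
    simp only [GF, Option.elim, hJ1]
    ring

end final

theorem expf : Pool.Agent.W307.FK.EXPF := by
  intro k c z y hz
  classical
  rw [lhsF, sum_Tup, ← Finset.sum_fiberwise univ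
    (fun (l : Pr z y → Option (IF k)) => fun p => fgF (l p))]
  refine Finset.sum_congr rfl fun ξ _ => ?_
  have h1 : (univ.filter fun l : Pr z y → Option (IF k) => (fun p => fgF (l p)) = ξ) =
      Fintype.piFinset (fun p => univ.filter (fun x : Option (IF k) => fgF x = ξ p)) := by
    ext l
    simp only [Finset.mem_filter, Finset.mem_univ, true_and, Fintype.mem_piFinset, funext_iff]
  rw [h1, Finset.prod_congr rfl fun p _ => (sum_GF c ξ p).symm, Finset.prod_univ_sum]
  refine Finset.sum_congr rfl fun l hl => ?_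
  rw [Fintype.mem_piFinset] at hl
  exact (rhsF c ξ l fun p => (Finset.mem_filter.1 (hl p)).2).symm

end Pool.Agent.W864.FK
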